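import Pool.Agent.H31.MV.GenericKilling

/-!
# Conservation laws of a generic Killing tensor of a constant curvature metric, dimension `n ≥ 3`
-/

namespace Pool.Agent.Results.MP_e1e8f4_mp.GenericKilling

open Pool.H31.MV.GenericKilling

open scoped ContDiff Matrix

open Filter Topology

open Pool.Agent.H85.KT

variable {n : ℕ}

/-- **Main theorem.** Let `n ≥ 2` and let `g` be the metric of constant curvature `κ` and
signature `ε`, in Beltrami coordinates, on a connected open set `M`. The `(1,1)`-Killing tensors of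
`g` on `M` form a finite dimensional vector space `V`, and there is a proper algebraic subset
(the zero set of a non-zero polynomial `P` in linear coordinates on `V`) such that the following
holds for every Killing tensor `K` outside of it. If `n ≥ 3`, all local conservation laws of `K`,
on all connected open subsets of `M`, are constant. If `n = 2`, `K` has a real analytic
conservation law on `M` which is not constant on any non-empty open subset. -/
theorem result (n : ℕ) (hn : 2 ≤ n) (ε : Fin n → ℝ) (hε : ∀ i, ε i = 1 ∨ ε i = -1) (κ : ℝ)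
    (M : Set (Fin n → ℝ)) (hM : IsOpen M) (hMc : IsConnected M) (hw : ∀ x ∈ M, 0 < w ε κ x) :
    ∃ V : Submodule ℝ ((Fin n → ℝ) → Matrix (Fin n) (Fin n) ℝ),
      (∀ K, K ∈ V ↔ IsKillingTensor (metric ε κ) M K ∧ ∀ x, x ∉ M → K x = 0) ∧
      ∃ (d : ℕ) (b : Module.Basis (Fin d) ℝ V) (P : MvPolynomial (Fin d) ℝ), P ≠ 0 ∧
        ∀ K : V, MvPolynomial.eval (b.repr K) P ≠ 0 →
          (3 ≤ n → ∀ U : Set (Fin n → ℝ), IsOpen U → IsPreconnected U → U ⊆ M →
            ∀ f : (Fin n → ℝ) → ℝ, ContDiffOn ℝ ∞ f U →
              IsConservationLaw (K : (Fin n → ℝ) → Matrix (Fin n) (Fin n) ℝ) U f →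
              ∃ a, ∀ x ∈ U, f x = a) ∧
          (n = 2 → ∃ f : (Fin n → ℝ) → ℝ, ContDiffOn ℝ ω f M ∧
            IsConservationLaw (K : (Fin n → ℝ) → Matrix (Fin n) (Fin n) ℝ) M f ∧
            ∀ U : Set (Fin n → ℝ), IsOpen U → U.Nonempty → U ⊆ M →
              ¬ ∃ a, ∀ x ∈ U, f x = a) :=
  Pool.H31.MV.GenericKilling.result n hn ε hε κ M hM hMc hw

end Pool.Agent.Results.MP_e1e8f4_mp.GenericKilling
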